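import Pool.Agent.H48.ER.Targets

/-!
# MP_816b90_co, row M3: vertices of degree at most three in a minimal counterexample
-/

set_option autoImplicit false

namespace Pool.Agent.H3.ER

open Pool.Agent.H48.ER

theorem three {V : Type} {x y z p q r w : V} (hpq : p ≠ q) (hpr : p ≠ r) (hqr : q ≠ r)
    (hp : p = x ∨ p = y ∨ p = z) (hq : q = x ∨ q = y ∨ q = z) (hr : r = x ∨ r = y ∨ r = z)
    (hw : w = x ∨ w = y ∨ w = z) : w = p ∨ w = q ∨ w = r := by
  rcases hp with rfl | rfl | rfl <;> rcases hq with rfl | rfl | rfl <;>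
    rcases hr with rfl | rfl | rfl <;> first | contradiction | tauto

theorem two {V : Type} {x y z p q : V} (hpq : p ≠ q)
    (hp : p = x ∨ p = y ∨ p = z) (hq : q = x ∨ q = y ∨ q = z) :
    ∃ r : V, ∀ w, (w = x ∨ w = y ∨ w = z) → w = p ∨ w = r ∨ w = q := by
  rcases hp with rfl | rfl | rfl <;> rcases hq with rfl | rfl | rfl
  · exact absurd rfl hpq
  · exact ⟨z, fun w hw => by tauto⟩
  · exact ⟨y, fun w hw => by tauto⟩
  · exact ⟨z, fun w hw => by tauto⟩
  · exact absurd rfl hpq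
  · exact ⟨x, fun w hw => by tauto⟩
  · exact ⟨y, fun w hw => by tauto⟩
  · exact ⟨x, fun w hw => by tauto⟩
  · exact absurd rfl hpq

theorem claimA (hCNH : T_CNH) (hTWC : T_TWC) {V : Type} [Finite V] {G : SimpleGraph V}
    {S : Set V} {v p r q : V} (hMC : MC G S) (hdeg : ∀ w, G.Adj v w → w = p ∨ w = r ∨ w = q)
    (hvp : G.Adj v p) (hvq : G.Adj v q) (hpq : p ≠ q) (hE : EvP G p q)
    (hN : NOP (ctr G p q)) : False := by
  have hpS : p ∈ S := (hMC.sup v p hvp).2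
  have hqS : q ∈ S := (hMC.sup v q hvq).2
  refine hMC.nct (CT.step G S p q hpS hqS hE ?_)
  refine hMC.min _ _ ?_ (hCNH V G p q hMC.noh hE) hN
    (hTWC V G v p r q hMC.tw hvp hvq hpq hdeg) ?_
  · rintro a b ⟨-, h2, h3, h4⟩
    rcases h4 with h | ⟨h, h'⟩ | ⟨h, h'⟩
    · exact ⟨⟨(hMC.sup a b h).1, h2⟩, ⟨(hMC.sup a b h).2, h3⟩⟩
    · exact ⟨⟨h ▸ hpS, h2⟩, ⟨(hMC.sup q b h').2, h3⟩⟩
    · exact ⟨⟨(hMC.sup a q h').1, h2⟩, ⟨h ▸ hpS, h3⟩⟩
  · exact Set.ncard_sdiff_singleton_lt_of_mem hqS (Set.toFinite S)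

theorem pf_M3 (hM1 : T_M1) (hCNH : T_CNH) (hTSE : T_TSE) (hTSN : T_TSN) (hTPN : T_TPN)
    (hTDN : T_TDN) (hTWC : T_TWC) : T_M3 := by
  intro V _ G S v x y z hMC hvS hdeg
  obtain ⟨u, w, hvu, hvw, huw, hnuw⟩ := (hM1 V G S hMC).1 v hvS
  by_cases hst : ∀ a b, G.Adj v a → G.Adj v b → ¬ G.Adj a b
  · exfalso
    obtain ⟨r, hr⟩ := two huw (hdeg u hvu) (hdeg w hvw)
    exact claimA hCNH hTWC hMC (fun t ht => hr t (hdeg t ht)) hvu hvw huw
      (hTSE V G v u w hMC.noh hst hvu hvw huw)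
      (hTSN V G v u w hMC.noh hMC.nop hst hvu hvw huw)
  push Not at hst
  obtain ⟨p, q, hvp, hvq, hpq⟩ := hst
  have hpq' : p ≠ q := G.ne_of_adj hpq
  -- the third neighbour
  obtain ⟨r, hvr, hpr, hqr, hcase⟩ : ∃ r, G.Adj v r ∧ p ≠ r ∧ q ≠ r ∧
      ¬ (G.Adj p r ∧ G.Adj q r) := by
    have key : ∀ r, G.Adj v r → p ≠ r → q ≠ r → ¬ (G.Adj p r ∧ G.Adj q r) := by
      rintro r hvr hpr hqr ⟨h1, h2⟩
      have hu := three hpq' hpr hqr (hdeg p hvp) (hdeg q hvq) (hdeg r hvr) (hdeg u hvu)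
      have hw := three hpq' hpr hqr (hdeg p hvp) (hdeg q hvq) (hdeg r hvr) (hdeg w hvw)
      rcases hu with rfl | rfl | rfl <;> rcases hw with rfl | rfl | rfl
      · exact huw rfl
      · exact hnuw hpq
      · exact hnuw h1
      · exact hnuw hpq.symm
      · exact huw rfl
      · exact hnuw h2
      · exact hnuw h1.symm
      · exact hnuw h2.symm
      · exact huw rfl
    by_cases hu : p ≠ u ∧ q ≠ u
    · exact ⟨u, hvu, hu.1, hu.2, key u hvu hu.1 hu.2⟩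
    by_cases hw : p ≠ w ∧ q ≠ w
    · exact ⟨w, hvw, hw.1, hw.2, key w hvw hw.1 hw.2⟩
    exfalso
    have hu' : p = u ∨ q = u := by tauto
    have hw' : p = w ∨ q = w := by tauto
    rcases hu' with rfl | rfl <;> rcases hw' with rfl | rfl
    · exact huw rfl
    · exact hnuw hpq
    · exact hnuw hpq.symm
    · exact huw rfl
  have hd3 : ∀ t, G.Adj v t → t = p ∨ t = q ∨ t = r := fun t ht =>
    three hpq' hpr hqr (hdeg p hvp) (hdeg q hvq) (hdeg r hvr) (hdeg t ht)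
  by_cases h1 : G.Adj p r
  · exfalso
    have h2 : ¬ G.Adj q r := fun h => hcase ⟨h1, h⟩
    have hiff : ∀ t, G.Adj v t ↔ t = q ∨ t = p ∨ t = r := by
      intro t
      constructor
      · intro h
        rcases hd3 t h with h | h | h
        · exact Or.inr (Or.inl h)
        · exact Or.inl h
        · exact Or.inr (Or.inr h)
      · rintro (rfl | rfl | rfl)
        · exact hvq
        · exact hvp
        · exact hvr
    obtain ⟨h3, h4⟩ := hTPN V G v q p r hMC.noh hMC.nop hiff hpq.symm h1 hqr h2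
    exact claimA hCNH hTWC hMC (fun t ht => (hiff t).1 ht) hvq hvr hqr h3 h4
  have hiff : ∀ t, G.Adj v t ↔ t = p ∨ t = q ∨ t = r := by
    intro t
    constructor
    · exact hd3 t
    · rintro (rfl | rfl | rfl)
      · exact hvp
      · exact hvq
      · exact hvr
  by_cases h2 : G.Adj q r
  · exfalso
    obtain ⟨h3, h4⟩ := hTPN V G v p q r hMC.noh hMC.nop hiff hpq h2 hpr h1
    exact claimA hCNH hTWC hMC (fun t ht => (hiff t).1 ht) hvp hvr hpr h3 h4
  have hiff' : ∀ t, G.Adj v t ↔ t = q ∨ t = p ∨ t = r := by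
    intro t
    rw [hiff t]
    tauto
  refine ⟨p, q, r, hiff, hpr, hqr, hpq, h1, h2, fun hE => ?_, fun hE => ?_⟩
  · exact claimA hCNH hTWC hMC (fun t ht => (hiff t).1 ht) hvp hvr hpr hE
      (hTDN V G v p q r hMC.noh hMC.nop hiff hpq h1 h2 hE)
  · exact claimA hCNH hTWC hMC (fun t ht => (hiff' t).1 ht) hvq hvr hqr hE
      (hTDN V G v q p r hMC.noh hMC.nop hiff' hpq.symm h2 h1 hE)

end Pool.Agent.H3.ER
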